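import Mathlib
import Pool.Agent.Lib.MP_0fcb7f_al.Main

namespace Pool.Agent.Results.MP_0fcb7f_al.OrdersDivide840

/-- `σ` is the class transposition of two disjoint residue classes `r₁(m₁)` and `r₂(m₂)`. -/
def IsClassTransposition (σ : Equiv.Perm ℤ) : Prop :=
  ∃ r₁ m₁ r₂ m₂ : ℤ, 0 ≤ r₁ ∧ r₁ < m₁ ∧ 0 ≤ r₂ ∧ r₂ < m₂ ∧
    (∀ k l : ℤ, r₁ + k * m₁ ≠ r₂ + l * m₂) ∧
    (∀ k : ℤ, σ (r₁ + k * m₁) = r₂ + k * m₂) ∧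
    (∀ k : ℤ, σ (r₂ + k * m₂) = r₁ + k * m₁) ∧
    (∀ x : ℤ, (∀ k : ℤ, x ≠ r₁ + k * m₁) → (∀ k : ℤ, x ≠ r₂ + k * m₂) → σ x = x)

theorem result :
    {n : ℕ | 1 ≤ n ∧ ∃ τ τ' : Equiv.Perm ℤ,
      IsClassTransposition τ ∧ IsClassTransposition τ' ∧ orderOf (τ * τ') = n}
      ⊆ (Nat.divisors 840 : Finset ℕ) := by
  rintro n ⟨hn, τ, τ', ⟨r₁, m₁, r₂, m₂, a1, a2, a3, a4, a5, a6, a7, a8⟩,
    ⟨s₁, n₁, s₂, n₂, b1, b2, b3, b4, b5, b6, b7, b8⟩, rfl⟩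
  obtain ⟨S', g', t', h'⟩ :=
    Lib.MP_0fcb7f_al.exists_sides τ r₁ m₁ r₂ m₂ (by omega) (by omega) a5 a6 a7 a8
  obtain ⟨S, g, t, h⟩ :=
    Lib.MP_0fcb7f_al.exists_sides τ' s₁ n₁ s₂ n₂ (by omega) (by omega) b5 b6 b7 b8
  have := Lib.MP_0fcb7f_al.lemB h h' hn (pow_orderOf_eq_one _)
  rw [Finset.mem_coe, Nat.mem_divisors]
  exact ⟨orderOf_dvd_of_pow_eq_one this, by norm_num⟩

end Pool.Agent.Results.MP_0fcb7f_al.OrdersDivide840
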